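import Pool.Agent.H21SS.Stmts

set_option autoImplicit false

open Real Set Metric Complex Filter Topology

namespace Pool.Agent.H189R3.SS

open Pool.Agent.H21SS

lemma re_pos {w : ℂ} (hw : ‖w‖ < 1) : 0 < ((1 + w) / (1 - w)).re := by
  have h1 : (1 - w) ≠ 0 := by
    intro h
    have : w = 1 := by linear_combination -h
    rw [this] at hw
    simp at hw
  have h2 : 0 < Complex.normSq (1 - w) := Complex.normSq_pos.2 h1
  rw [Complex.div_re, ← add_div]
  apply div_pos _ h2
  have h3 : w.re ^ 2 + w.im ^ 2 < 1 := by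
    have h4 : ‖w‖ ^ 2 < 1 := by nlinarith [norm_nonneg w]
    rw [Complex.sq_norm, Complex.normSq_apply] at h4
    nlinarith
  simp only [Complex.add_re, Complex.sub_re, Complex.add_im, Complex.sub_im, Complex.one_re,
    Complex.one_im]
  nlinarith

lemma mem_slit {w : ℂ} (hw : ‖w‖ < 1) : ((1 + w) / (1 - w)) ∈ Complex.slitPlane :=
  Or.inl (re_pos hw)

lemma one_sub_ne {w : ℂ} (hw : ‖w‖ < 1) : (1 - w) ≠ 0 := by
  intro h
  have : w = 1 := by linear_combination -h
  rw [this] at hw
  simp at hw

lemma norm_tau {τ : ℝ} (h0 : 0 ≤ τ) (h1 : τ < 1) {ζ : ℂ} (hζ : ‖ζ‖ ≤ 1) (N : ℕ) :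
    ‖(τ : ℂ) * ζ ^ N‖ < 1 := by
  rw [norm_mul, norm_pow, Complex.norm_real, Real.norm_of_nonneg h0]
  have h2 : ‖ζ‖ ^ N ≤ 1 := pow_le_one₀ (norm_nonneg _) hζ
  have h3 : 0 ≤ ‖ζ‖ ^ N := by positivity
  nlinarith

lemma k0_tau (N : ℕ) (z : ℂ) (hz : ‖z‖ < 1) (τ : ℝ) (h0 : 0 ≤ τ) (h1 : τ < 1) :
    PP (fun ζ => Complex.arg ((1 + τ * ζ ^ N) / (1 - τ * ζ ^ N))) z =
      Complex.arg ((1 + τ * z ^ N) / (1 - τ * z ^ N)) := by
  set f : ℂ → ℂ := fun ζ => Complex.log ((1 + τ * ζ ^ N) / (1 - τ * ζ ^ N)) with hf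
  have hd : DifferentiableOn ℂ f (closedBall 0 1) := by
    intro ζ hζ
    have h2 : ‖ζ‖ ≤ 1 := by simpa using hζ
    have h3 := norm_tau h0 h1 h2 N
    apply DifferentiableAt.differentiableWithinAt
    have h5 : DifferentiableAt ℂ (fun ζ : ℂ => (1 + τ * ζ ^ N) / (1 - τ * ζ ^ N)) ζ := by
      apply DifferentiableAt.div
      · fun_prop
      · fun_prop
      · exact one_sub_ne h3
    exact h5.clog (mem_slit h3)
  have hdc : DiffContOnCl ℂ f (ball 0 1) := by
    apply DifferentiableOn.diffContOnCl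
    rw [closure_ball (0 : ℂ) one_ne_zero]
    exact hd
  have hzb : z ∈ ball (0 : ℂ) 1 := by simpa using hz
  have h4 := hdc.circleAverage_poissonKernel_smul' hzb
  have h5 := congrArg Complex.im h4
  have hint : CircleIntegrable (fun ζ : ℂ =>
      ((‖ζ - 0‖ ^ 2 - ‖z - 0‖ ^ 2) / ‖(ζ - 0) - (z - 0)‖ ^ 2) • f ζ) 0 1 := by
    apply ContinuousOn.circleIntegrable zero_le_one
    refine ContinuousOn.smul (f := fun ζ : ℂ => ((‖ζ - 0‖ ^ 2 - ‖z - 0‖ ^ 2) /
      ‖(ζ - 0) - (z - 0)‖ ^ 2)) (g := f) ?_ ?_
    · apply ContinuousOn.div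
      · fun_prop
      · fun_prop
      · intro ζ hζ
        have h6 : ‖ζ‖ = 1 := by simpa using hζ
        have h7 : ζ - 0 - (z - 0) ≠ 0 := by
          intro h8
          have h9 : ζ = z := by linear_combination h8
          rw [h9] at h6
          linarith
        positivity
    · exact hd.continuousOn.mono sphere_subset_closedBall
  have h6 := ContinuousLinearMap.circleAverage_comp_comm Complex.imCLM hint
  have h7 : (f z).im = Complex.arg ((1 + τ * z ^ N) / (1 - τ * z ^ N)) := by
    rw [hf]; exact Complex.log_im _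
  rw [← h7, ← h4]
  refine Eq.trans ?_ h6
  unfold PP
  apply Real.circleAverage_congr_sphere
  intro ζ _
  simp only [sub_zero, Function.comp, Complex.imCLM_apply, Complex.real_smul,
    Complex.mul_im, Complex.ofReal_re, Complex.ofReal_im, zero_mul, add_zero, hf,
    Complex.log_im]

lemma arg_lim (w : ℂ) (hw : ‖w‖ = 1) (u : ℕ → ℝ) (hu0 : ∀ n, 0 ≤ u n) (hu1 : ∀ n, u n < 1)
    (hu : Tendsto u atTop (𝓝 1)) :
    Tendsto (fun n => Complex.arg ((1 + u n * w) / (1 - u n * w))) atTop
      (𝓝 (π / 2 * (SignType.sign w.im : ℝ))) := by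
  have hsq : w.re ^ 2 + w.im ^ 2 = 1 := by
    have h4 : ‖w‖ ^ 2 = 1 := by rw [hw]; norm_num
    rw [Complex.sq_norm, Complex.normSq_apply] at h4
    nlinarith
  by_cases him : w.im = 0
  · have h1 : ∀ n, Complex.arg ((1 + u n * w) / (1 - u n * w)) = 0 := by
      intro n
      have h2 : w = (w.re : ℂ) := by
        apply Complex.ext <;> simp [him]
      have h3 : ((1 + u n * w) / (1 - u n * w)) =
          (((1 + u n * w.re) / (1 - u n * w.re) : ℝ) : ℂ) := by
        conv_lhs => rw [h2]
        push_cast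
        rfl
      rw [h3]
      apply Complex.arg_ofReal_of_nonneg
      have h5 : w.re ^ 2 = 1 := by rw [him] at hsq; linarith
      have h6 : w.re ≤ 1 := by nlinarith
      have h7 : -1 ≤ w.re := by nlinarith
      have h8 := hu0 n
      have h9 := hu1 n
      apply div_nonneg <;> nlinarith
    simp only [h1, him]
    simp
  · have hne : (1 - w) ≠ 0 := by
      intro h
      apply him
      have : w = 1 := by linear_combination -h
      rw [this]; simp
    have hq : Tendsto (fun n => ((1 + u n * w) / (1 - u n * w))) atTop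
        (𝓝 ((1 + ((1 : ℝ) : ℂ) * w) / (1 - ((1 : ℝ) : ℂ) * w))) := by
      have h1 : Tendsto (fun n => ((u n : ℝ) : ℂ)) atTop (𝓝 ((1 : ℝ) : ℂ)) :=
        (Complex.continuous_ofReal.tendsto 1).comp hu
      apply Tendsto.div
      · exact tendsto_const_nhds.add (h1.mul tendsto_const_nhds)
      · exact tendsto_const_nhds.sub (h1.mul tendsto_const_nhds)
      · simpa using hne
    rw [Complex.ofReal_one, one_mul] at hq
    have hn : 0 < Complex.normSq (1 - w) := Complex.normSq_pos.2 hne
    have hre : ((1 + w) / (1 - w)).re = 0 := by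
      rw [Complex.div_re, ← add_div]
      rw [div_eq_zero_iff]
      left
      simp only [Complex.add_re, Complex.sub_re, Complex.add_im, Complex.sub_im, Complex.one_re,
        Complex.one_im]
      nlinarith
    have him2 : ((1 + w) / (1 - w)).im = 2 * w.im / Complex.normSq (1 - w) := by
      rw [Complex.div_im, ← sub_div]
      congr 1
      simp only [Complex.add_re, Complex.sub_re, Complex.add_im, Complex.sub_im, Complex.one_re,
        Complex.one_im]
      ring
    have hslit : ((1 + w) / (1 - w)) ∈ Complex.slitPlane := by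
      right
      rw [him2]
      positivity
    have h2 := (Complex.continuousAt_arg hslit).tendsto.comp hq
    have h3 : Complex.arg ((1 + w) / (1 - w)) = π / 2 * (SignType.sign w.im : ℝ) := by
      rcases lt_or_gt_of_ne him with h | h
      · rw [sign_neg h]
        have h4 : Complex.arg ((1 + w) / (1 - w)) = -(π / 2) := by
          rw [Complex.arg_eq_neg_pi_div_two_iff]
          refine ⟨hre, ?_⟩
          rw [him2]
          apply div_neg_of_neg_of_pos _ hn
          linarith
        rw [h4]; simp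
      · rw [sign_pos h]
        have h4 : Complex.arg ((1 + w) / (1 - w)) = π / 2 := by
          rw [Complex.arg_eq_pi_div_two_iff]
          refine ⟨hre, ?_⟩
          rw [him2]
          positivity
        rw [h4]; simp
    rw [← h3]
    exact h2

theorem taskK0 : TaskK0 := by
  intro N z hN hz
  set u : ℕ → ℝ := fun n => 1 - 1 / ((n : ℝ) + 1) with hu
  have hu0 : ∀ n, 0 ≤ u n := by
    intro n
    have h1 : (1 : ℝ) / ((n : ℝ) + 1) ≤ 1 := by
      rw [div_le_one (by positivity)]
      have : (0 : ℝ) ≤ n := Nat.cast_nonneg n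
      linarith
    simp only [hu]; linarith
  have hu1 : ∀ n, u n < 1 := by
    intro n
    have h1 : (0 : ℝ) < 1 / ((n : ℝ) + 1) := by positivity
    simp only [hu]; linarith
  have hul : Tendsto u atTop (𝓝 1) := by
    have h1 := (tendsto_const_nhds (x := (1 : ℝ)) (f := atTop (α := ℕ))).sub
      (tendsto_one_div_add_atTop_nhds_zero_nat (𝕜 := ℝ))
    simp only [sub_zero] at h1
    exact h1
  -- left hand side
  have hzN : ‖z ^ N‖ < 1 := by
    rw [norm_pow]
    exact pow_lt_one₀ (norm_nonneg _) hz (by omega)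
  have hL : Tendsto (fun n => Complex.arg ((1 + u n * z ^ N) / (1 - u n * z ^ N))) atTop
      (𝓝 (Complex.arg ((1 + z ^ N) / (1 - z ^ N)))) := by
    have hq : Tendsto (fun n => ((1 + u n * z ^ N) / (1 - u n * z ^ N))) atTop
        (𝓝 ((1 + ((1 : ℝ) : ℂ) * z ^ N) / (1 - ((1 : ℝ) : ℂ) * z ^ N))) := by
      have h1 : Tendsto (fun n => ((u n : ℝ) : ℂ)) atTop (𝓝 ((1 : ℝ) : ℂ)) :=
        (Complex.continuous_ofReal.tendsto 1).comp hul
      apply Tendsto.div
      · exact tendsto_const_nhds.add (h1.mul tendsto_const_nhds)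
      · exact tendsto_const_nhds.sub (h1.mul tendsto_const_nhds)
      · simpa using one_sub_ne hzN
    rw [Complex.ofReal_one, one_mul] at hq
    exact (Complex.continuousAt_arg (mem_slit hzN)).tendsto.comp hq
  have hR : Tendsto (fun n => PP (fun ζ => Complex.arg ((1 + u n * ζ ^ N) / (1 - u n * ζ ^ N))) z)
      atTop (𝓝 (PP (fun ζ => π / 2 * (SignType.sign (ζ ^ N).im : ℝ)) z)) := by
    unfold PP
    simp only [Real.circleAverage_def]
    apply Tendsto.const_smul
    have hcm : ∀ θ : ℝ, ‖circleMap 0 1 θ‖ = 1 := by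
      intro θ; simp
    have hne : ∀ θ : ℝ, ‖circleMap 0 1 θ - z‖ ^ 2 ≠ 0 := by
      intro θ h
      have h1 : circleMap 0 1 θ - z = 0 := by simpa using h
      have h2 := hcm θ
      have h3 : circleMap 0 1 θ = z := by linear_combination h1
      rw [h3] at h2
      linarith
    have hKc : Continuous (fun θ : ℝ => (‖circleMap 0 1 θ‖ ^ 2 - ‖z‖ ^ 2) /
        ‖circleMap 0 1 θ - z‖ ^ 2) := by
      apply Continuous.div
      · fun_prop
      · fun_prop
      · exact hne
    apply intervalIntegral.tendsto_integral_filter_of_dominated_convergence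
      (fun θ : ℝ => |(‖circleMap 0 1 θ‖ ^ 2 - ‖z‖ ^ 2) / ‖circleMap 0 1 θ - z‖ ^ 2| * π)
    · refine Eventually.of_forall fun n => ?_
      apply Continuous.aestronglyMeasurable
      apply hKc.mul
      rw [continuous_iff_continuousAt]
      intro θ
      have h3 := norm_tau (hu0 n) (hu1 n) (le_of_eq (hcm θ)) N
      apply ContinuousAt.comp (g := Complex.arg)
      · exact Complex.continuousAt_arg (mem_slit h3)
      · apply ContinuousAt.div
        · fun_prop
        · fun_prop
        · exact one_sub_ne h3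
    · refine Eventually.of_forall fun n => ?_
      refine Eventually.of_forall fun θ _ => ?_
      rw [norm_mul, Real.norm_eq_abs, Real.norm_eq_abs]
      exact mul_le_mul_of_nonneg_left (Complex.abs_arg_le_pi _) (abs_nonneg _)
    · apply Continuous.intervalIntegrable
      exact hKc.abs.mul continuous_const
    · refine Eventually.of_forall fun θ _ => ?_
      apply Tendsto.const_mul
      apply arg_lim _ _ u hu0 hu1 hul
      rw [norm_pow, hcm θ, one_pow]
  have hE : ∀ n, PP (fun ζ => Complex.arg ((1 + u n * ζ ^ N) / (1 - u n * ζ ^ N))) z =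
      Complex.arg ((1 + u n * z ^ N) / (1 - u n * z ^ N)) :=
    fun n => k0_tau N z hz (u n) (hu0 n) (hu1 n)
  simp only [hE] at hR
  exact tendsto_nhds_unique hL hR

end Pool.Agent.H189R3.SS
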